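import Mathlib

/-!
# Project NT (helper242), MP_73700b_an

An infinite-dimensional Banach space in which closed bounded convex sets have extreme points (for
example, a reflexive space) and whose Kottman constant is smaller than `2` has no tiling by balls.
A *system* is a set `B` of pairs (centre, radius).
-/

set_option autoImplicit false

open Metric Set Filter Topology

namespace Pool.Agent.N242.NT

universe u

section defs

variable {X : Type u} [NormedAddCommGroup X] [NormedSpace ℝ X]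

/-- `B` is a tiling of `X` by closed balls (pairs (centre, radius)) with disjoint interiors. -/
structure Tiling (B : Set (X × ℝ)) : Prop where
  pos : ∀ b ∈ B, 0 < b.2
  cov : ∀ x : X, ∃ b ∈ B, ‖x - b.1‖ ≤ b.2
  dis : ∀ b ∈ B, ∀ b' ∈ B, b ≠ b' → ∀ x, ‖x - b.1‖ < b.2 → ¬ ‖x - b'.1‖ < b'.2

/-- The point `x` is singular: every neighbourhood meets infinitely many balls of the system. -/
def Sing (B : Set (X × ℝ)) (x : X) : Prop :=
  ∀ ρ > 0, {b | b ∈ B ∧ ‖x - b.1‖ < b.2 + ρ}.Infinite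

/-- Near every point there are only finitely many balls of radius at least `δ`. -/
def LocNull (B : Set (X × ℝ)) : Prop :=
  ∀ x : X, ∀ δ > 0, ∃ ρ > 0, {b | b ∈ B ∧ δ ≤ b.2 ∧ ‖x - b.1‖ < b.2 + ρ}.Finite

variable (X)

/-- Every nonempty closed bounded convex set has an extreme point. -/
def KMP : Prop :=
  ∀ K : Set X, IsClosed K → Bornology.IsBounded K → Convex ℝ K → K.Nonempty →
    (K.extremePoints ℝ).Nonempty

/-- The geometric property used to show that tilings by balls are locally null. -/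
def Q : Prop :=
  ¬ ∃ (e : X) (u : ℕ → X), ‖e‖ = 1 ∧ Tendsto (fun n => ‖u n‖) atTop (𝓝 1) ∧
    (∀ i j, i ≠ j → 2 ≤ ‖u i - u j‖) ∧ ∀ j, 2 ≤ ‖e + u j‖

/-- The Kottman constant of `X` is smaller than `2`. -/
def Kot : Prop :=
  ∃ η > 0, ∀ u : ℕ → X, (∀ n, ‖u n‖ ≤ 1) → ∃ i j, i ≠ j ∧ ‖u i - u j‖ < 2 - η

variable {X}

/-- The Kottman constant for a seminorm. -/
def KS (M : Seminorm ℝ X) : Prop :=
  ∃ η > 0, ∀ u : ℕ → X, (∀ n, M (u n) ≤ 1) → ∃ i j, i ≠ j ∧ M (u i - u j) < 2 - η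

end defs

/-- (FLA) At a nonsingular point the tile is flat in finite codimension. -/
def S_FLA : Prop :=
  ∀ (X : Type u) [NormedAddCommGroup X] [NormedSpace ℝ X] (B : Set (X × ℝ)), Tiling B →
    ∀ b ∈ B, ∀ z, ‖z - b.1‖ ≤ b.2 → ¬ Sing B z →
    ∃ (F : Finset (X →L[ℝ] ℝ)) (ε : ℝ), 0 < ε ∧
      ∀ v, (∀ f ∈ F, f v = 0) → ‖v‖ ≤ ε → ‖z + v - b.1‖ ≤ b.2

/-- (EXT) A ball has a point, with prescribed values of finitely many functionals, at which it is
not flat in finite codimension. -/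
def S_EXT : Prop :=
  ∀ (X : Type u) [NormedAddCommGroup X] [NormedSpace ℝ X], KMP X → ¬ FiniteDimensional ℝ X →
    ∀ (c : X) (r : ℝ), 0 < r → ∀ F : Finset (X →L[ℝ] ℝ),
    ∃ z, ‖z - c‖ ≤ r ∧ (∀ f ∈ F, f z = f c) ∧
      ∀ (G : Finset (X →L[ℝ] ℝ)) (ε : ℝ), 0 < ε →
        ∃ v, (∀ f ∈ G, f v = 0) ∧ ‖v‖ ≤ ε ∧ ¬ ‖z + v - c‖ ≤ r

/-- (SEP) Two tiles are separated by a functional, strictly at the centre of the second one. -/
def S_SEP : Prop :=
  ∀ (X : Type u) [NormedAddCommGroup X] [NormedSpace ℝ X] (B : Set (X × ℝ)), Tiling B →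
    ∀ b ∈ B, ∀ b' ∈ B, b ≠ b' → ∃ (f : X →L[ℝ] ℝ) (β : ℝ),
      (∀ x, ‖x - b.1‖ ≤ b.2 → f x ≤ β) ∧ (∀ x, ‖x - b'.1‖ ≤ b'.2 → β ≤ f x) ∧
      f b.1 < β ∧ β < f b'.1

/-- (LNU) Property `Q` implies that tilings by balls are locally null. -/
def S_LNU : Prop :=
  ∀ (X : Type u) [NormedAddCommGroup X] [NormedSpace ℝ X] (B : Set (X × ℝ)), Q X → Tiling B →
    LocNull B

/-- (BAI) Baire category in the set of the singular points. -/
def S_BAI : Prop :=
  ∀ (X : Type u) [NormedAddCommGroup X] [NormedSpace ℝ X] [CompleteSpace X] (B : Set (X × ℝ)),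
    Tiling B → LocNull B → (∃ x, Sing B x) →
    ∃ δ > 0, ∃ q, Sing B q ∧ ∃ ρ > 0, ∀ x, Sing B x → ‖x - q‖ < ρ →
      ∃ b ∈ B, δ ≤ b.2 ∧ ‖x - b.1‖ ≤ b.2

/-- (MAI) A locally null tiling by balls does not exist. -/
def S_MAI : Prop :=
  ∀ (X : Type u) [NormedAddCommGroup X] [NormedSpace ℝ X] [CompleteSpace X] (B : Set (X × ℝ)),
    KMP X → ¬ FiniteDimensional ℝ X → Tiling B → ¬ LocNull B

/-- (REF) Reflexive spaces have the property `KMP`. -/
def S_REF : Prop :=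
  ∀ (X : Type u) [NormedAddCommGroup X] [NormedSpace ℝ X],
    Function.Surjective (NormedSpace.inclusionInDoubleDual ℝ X) → KMP X

/-- (HIL) Spaces which are isomorphic to a Hilbert space have the property `KMP`. -/
def S_HIL : Prop :=
  ∀ (X H : Type u) [NormedAddCommGroup X] [NormedSpace ℝ X] [NormedAddCommGroup H]
    [InnerProductSpace ℝ H] [CompleteSpace H], (X ≃L[ℝ] H) → KMP X

/-- (KOT) If the Kottman constant is smaller than `2` then `Q` holds. -/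
def S_KOT : Prop :=
  ∀ (X : Type u) [NormedAddCommGroup X] [NormedSpace ℝ X], Kot X → Q X

/-- (PER) Perturbation by the Hilbert norm. -/
def S_PER : Prop :=
  ∀ (H : Type u) [NormedAddCommGroup H] [InnerProductSpace ℝ H] (N : Seminorm ℝ H) (C ε : ℝ),
    (∀ x, N x ≤ C * ‖x‖) → 0 < ε →
    ∃ M : Seminorm ℝ H, (∀ x, M x ^ 2 = N x ^ 2 + ε ^ 2 * ‖x‖ ^ 2) ∧ KS M

/-- (OPN) The set of norms with Kottman constant smaller than `2` is open. -/
def S_OPN : Prop :=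
  ∀ (X : Type u) [NormedAddCommGroup X] [NormedSpace ℝ X] (M : Seminorm ℝ X), KS M →
    ∃ θ > 0, θ < 1 ∧ ∀ M' : Seminorm ℝ X,
      (∀ x, (1 - θ) * M x ≤ M' x ∧ M' x ≤ (1 + θ) * M x) → KS M'

/-- (DIS) Norms at distance less than `√2` from the Hilbert norm. -/
def S_DIS : Prop :=
  ∀ (H : Type u) [NormedAddCommGroup H] [InnerProductSpace ℝ H] (M : Seminorm ℝ H) (c C : ℝ),
    0 < c → C ^ 2 < 2 * c ^ 2 → (∀ x, c * ‖x‖ ≤ M x ∧ M x ≤ C * ‖x‖) → KS M

/-- (SEM) An equivalent norm on `H`, given as a seminorm, comes from a Banach space. -/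
def S_SEM : Prop :=
  ∀ (H : Type u) [NormedAddCommGroup H] [NormedSpace ℝ H] [CompleteSpace H] (M : Seminorm ℝ H)
    (c C : ℝ), 0 < c → (∀ x, c * ‖x‖ ≤ M x ∧ M x ≤ C * ‖x‖) →
    ∃ (Z : Type u) (_ : NormedAddCommGroup Z) (_ : NormedSpace ℝ Z) (_ : CompleteSpace Z)
      (e : Z ≃L[ℝ] H), ∀ z, ‖z‖ = M (e z)

end Pool.Agent.N242.NT
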