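import Pool.Agent.N344.NT.LNU
import Pool.Agent.N78.NT.Bai

/-!
# Project NT (helper242): good points

A point `e` of the unit sphere is good if it is not flat in finite codimension and if there is no
`2`-separated sequence `u` with `‖u j‖ → 1` and `‖e + u j‖ ≥ 2`. If there are sufficiently many
good points then the space has no tiling by balls.
(The proofs of `lnu_pt`, `E_closed` and `t_GOO` are adapted from helper344, helper78, helper707.)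
-/

set_option autoImplicit false

open Metric Set Filter Topology

namespace Pool.Agent.N242.NT

universe u

section

variable {X : Type u} [NormedAddCommGroup X] [NormedSpace ℝ X]

/-- The point `e` of the unit sphere is not flat in finite codimension. -/
def NF (e : X) : Prop :=
  ∀ (G : Finset (X →L[ℝ] ℝ)) (ε : ℝ), 0 < ε → ∃ v, (∀ f ∈ G, f v = 0) ∧ ‖v‖ ≤ ε ∧ 1 < ‖e + v‖

/-- There is no `2`-separated sequence with norms tending to `1` which is at distance `≥ 2` from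
`-e`. -/
def NB (e : X) : Prop :=
  ¬ ∃ u : ℕ → X, Tendsto (fun n => ‖u n‖) atTop (𝓝 1) ∧ (∀ i j, i ≠ j → 2 ≤ ‖u i - u j‖) ∧
    ∀ j, 2 ≤ ‖e + u j‖

/-- Good points. -/
def Good (e : X) : Prop := ‖e‖ = 1 ∧ NF e ∧ NB e

variable (X) in
/-- There are sufficiently many good points. -/
def Rich : Prop :=
  ∀ (F : Finset (X →L[ℝ] ℝ)) (ε : ℝ), 0 < ε → ∃ e : X, Good e ∧ ∀ f ∈ F, -ε < f e

variable {B : Set (X × ℝ)}

open Pool.Agent.N344.NT in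
/-- Local nullity at a point of the boundary of the ball `b0`. -/
theorem lnu_pt (hB : Tiling B) {b0 : X × ℝ} (hb0 : b0 ∈ B) {e : X} (he : ‖e‖ = 1) (hQ : NB e)
    {δ : ℝ} (hδ : 0 < δ) :
    ∃ ρ > 0, {b | b ∈ B ∧ δ ≤ b.2 ∧ ‖b0.1 + b0.2 • e - b.1‖ < b.2 + ρ}.Finite := by
  have hr0 := hB.pos b0 hb0
  obtain ⟨x, hx⟩ : ∃ x : X, x = b0.1 + b0.2 • e := ⟨_, rfl⟩
  rw [← hx]
  have hxe : x - b0.1 = b0.2 • e := by rw [hx]; abel
  have heq : ‖x - b0.1‖ = b0.2 := by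
    rw [hxe, norm_smul, he, mul_one, Real.norm_of_nonneg hr0.le]
  have hx0 : ‖x - b0.1‖ ≤ b0.2 := heq.le
  by_contra hcon
  push Not at hcon
  have hinf : ∀ ρ > 0, {b | b ∈ B ∧ δ ≤ b.2 ∧ ‖x - b.1‖ < b.2 + ρ}.Infinite :=
    fun ρ hρ => hcon ρ hρ
  obtain ⟨d, hd⟩ : ∃ d : ℝ, d = min δ b0.2 := ⟨_, rfl⟩
  have hd0 : 0 < d := by rw [hd]; exact lt_min hδ hr0
  have hd1 : d ≤ δ := by rw [hd]; exact min_le_left _ _
  have hd2 : d ≤ b0.2 := by rw [hd]; exact min_le_right _ _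
  -- the sequence of balls
  obtain ⟨f, hf1, hf2⟩ := exists_seq_of_forall_finset_exists (α := ℕ × (X × ℝ))
    (fun a => a.2 ∈ B ∧ a.2 ≠ b0 ∧ δ ≤ a.2.2 ∧ ‖x - a.2.1‖ < a.2.2 + 1 / ((a.1 : ℝ) + 1))
    (fun a a' => a.1 < a'.1 ∧ a.2 ≠ a'.2) (by
      classical
      intro s _
      obtain ⟨b, hb, hbs⟩ := (hinf (1 / (((s.sup Prod.fst + 1 : ℕ) : ℝ) + 1))
        (by positivity)).exists_notMem_finset (insert b0 (s.image Prod.snd))
      rw [Finset.mem_insert, not_or] at hbs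
      refine ⟨(s.sup Prod.fst + 1, b), ⟨hb.1, hbs.1, hb.2.1, hb.2.2⟩, ?_⟩
      intro a ha
      refine ⟨Nat.lt_succ_of_le (Finset.le_sup (f := Prod.fst) ha), ?_⟩
      intro h
      have h' : a.2 = b := h
      exact hbs.2 (h' ▸ Finset.mem_image_of_mem Prod.snd ha))
  have hmono : StrictMono fun j => (f j).1 := fun i j hij => (hf2 i j hij).1
  have hge : ∀ j, j ≤ (f j).1 := fun j => hmono.le_apply
  have hdiff : ∀ i j, i ≠ j → (f i).2 ≠ (f j).2 := by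
    intro i j hij
    rcases lt_or_gt_of_ne hij with h | h
    · exact (hf2 i j h).2
    · exact ((hf2 j i h).2).symm
  -- the points
  have hpt : ∀ j, ∃ p : X, ‖p - (f j).2.1‖ = (f j).2.2 - d ∧
      ‖p - x‖ = ‖x - (f j).2.1‖ - ((f j).2.2 - d) := fun j =>
    pt (hB.pos _ (hf1 j).1) (by linarith [(hf1 j).2.2.1]) hd0.le
      (outer hB (hf1 j).1 hb0 (hf1 j).2.1 hx0)
  choose p hp1 hp2 using hpt
  have hlow : ∀ j, d ≤ ‖p j - x‖ := by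
    intro j
    have h1 := outer hB (hf1 j).1 hb0 (hf1 j).2.1 hx0
    rw [hp2]
    linarith
  have hup : ∀ j, ‖p j - x‖ ≤ d + 1 / ((j : ℝ) + 1) := by
    intro j
    have h1 := (hf1 j).2.2.2
    have h2 : 1 / (((f j).1 : ℝ) + 1) ≤ 1 / ((j : ℝ) + 1) := by
      apply one_div_le_one_div_of_le (by positivity)
      have : (j : ℝ) ≤ (f j).1 := by exact_mod_cast hge j
      linarith
    rw [hp2]
    linarith
  have hnorm : ∀ v : X, ‖(1 / d : ℝ) • v‖ = ‖v‖ / d := by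
    intro v
    rw [norm_smul, Real.norm_of_nonneg (by positivity)]
    ring
  have hE : e = (1 / b0.2 : ℝ) • (x - b0.1) := by
    rw [hxe, smul_smul, one_div, inv_mul_cancel₀ hr0.ne', one_smul]
  refine hQ ⟨fun j => (1 / d : ℝ) • (p j - x), ?_, ?_, ?_⟩
  · have hlim : Tendsto (fun j : ℕ => 1 + 1 / d * (1 / ((j : ℝ) + 1))) atTop (𝓝 1) := by
      have h1 := (tendsto_one_div_add_atTop_nhds_zero_nat (𝕜 := ℝ)).const_mul (1 / d)
      have h2 := h1.const_add 1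
      rwa [mul_zero, add_zero] at h2
    refine tendsto_of_tendsto_of_tendsto_of_le_of_le tendsto_const_nhds hlim ?_ ?_
    · intro j
      show 1 ≤ ‖(1 / d : ℝ) • (p j - x)‖
      rw [hnorm, le_div_iff₀ hd0, one_mul]
      exact hlow j
    · intro j
      show ‖(1 / d : ℝ) • (p j - x)‖ ≤ 1 + 1 / d * (1 / ((j : ℝ) + 1))
      rw [hnorm, div_le_iff₀ hd0]
      refine (hup j).trans (le_of_eq ?_)
      field_simp
  · intro i j hij
    have h1 := far hB (hf1 i).1 (hf1 j).1 (hdiff i j hij) (hp1 i).le (hp1 j).le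
    show 2 ≤ ‖(1 / d : ℝ) • (p i - x) - (1 / d : ℝ) • (p j - x)‖
    rw [← smul_sub, sub_sub_sub_cancel_right, hnorm, le_div_iff₀ hd0]
    exact h1
  · intro j
    have h1 := far hB (hf1 j).1 hb0 (hf1 j).2.1 (p := p j)
      (p' := x - (d / b0.2) • (x - b0.1)) (hp1 j).le (by
        have e1 : x - (d / b0.2) • (x - b0.1) - b0.1 = (1 - d / b0.2) • (x - b0.1) := by module
        have hs : d / b0.2 ≤ 1 := by rw [div_le_one hr0]; exact hd2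
        rw [e1, norm_smul, Real.norm_of_nonneg (by linarith), heq]
        apply le_of_eq
        field_simp)
    show 2 ≤ ‖e + (1 / d : ℝ) • (p j - x)‖
    have e2 : (1 / b0.2 : ℝ) • (x - b0.1) + (1 / d : ℝ) • (p j - x) =
        (1 / d : ℝ) • (p j - (x - (d / b0.2) • (x - b0.1))) := by
      have e3 : (1 / b0.2 : ℝ) = (1 / d) * (d / b0.2) := by field_simp
      rw [e3]
      module
    rw [hE, e2, hnorm, le_div_iff₀ hd0]
    exact h1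

/-- `x` is not a limit of balls of radius `≥ δ` -/
def LN (B : Set (X × ℝ)) (δ : ℝ) (x : X) : Prop :=
  ∃ ρ > 0, {b | b ∈ B ∧ δ ≤ b.2 ∧ ‖x - b.1‖ < b.2 + ρ}.Finite

open Pool.Agent.N78.NT in
omit [NormedSpace ℝ X] in
theorem LN_open (B : Set (X × ℝ)) (δ : ℝ) {x : X} (hx : LN B δ x) :
    ∃ ρ > 0, ∀ y, ‖y - x‖ < ρ → LN B δ y := by
  obtain ⟨ρ, hρ, hf⟩ := hx
  refine ⟨ρ / 2, by linarith, fun y hy => ⟨ρ / 2, by linarith, hf.subset ?_⟩⟩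
  rintro b ⟨hb1, hb2, hb3⟩
  have := tri x y b.1
  exact ⟨hb1, hb2, by linarith⟩

open Pool.Agent.N78.NT in
omit [NormedSpace ℝ X] in
theorem E_closed (B : Set (X × ℝ)) (δ : ℝ) :
    IsClosed {x : X | ¬ LN B δ x ∨ ∃ b ∈ B, δ ≤ b.2 ∧ ‖x - b.1‖ ≤ b.2} := by
  rw [← isOpen_compl_iff, Metric.isOpen_iff]
  intro x hx
  rw [mem_compl_iff, mem_ofPred_eq, not_or, not_not] at hx
  obtain ⟨hx1, hx'⟩ := hx
  obtain ⟨ρ', hρ', hop⟩ := LN_open B δ hx1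
  obtain ⟨ρ, hρ, hf⟩ := hx1
  have hpos : ∀ b ∈ hf.toFinset, 0 < ‖x - b.1‖ - b.2 := by
    intro b hb
    rw [Set.Finite.mem_toFinset] at hb
    obtain ⟨hb1, hb2, -⟩ := hb
    by_contra hcon
    exact hx' ⟨b, hb1, hb2, by linarith⟩
  have hev : ∀ᶠ t in 𝓝[>] (0 : ℝ), ∀ b ∈ hf.toFinset, t < ‖x - b.1‖ - b.2 :=
    (Filter.eventually_all_finset hf.toFinset).2 fun b hb =>
      mem_nhdsWithin_of_mem_nhds (Iio_mem_nhds (hpos b hb))
  have hev2 : ∀ᶠ t in 𝓝[>] (0 : ℝ), t < ρ := mem_nhdsWithin_of_mem_nhds (Iio_mem_nhds hρ)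
  have hev4 : ∀ᶠ t in 𝓝[>] (0 : ℝ), t < ρ' := mem_nhdsWithin_of_mem_nhds (Iio_mem_nhds hρ')
  have hev3 : ∀ᶠ t in 𝓝[>] (0 : ℝ), 0 < t := eventually_mem_nhdsWithin
  obtain ⟨t, ⟨⟨ht1, ht2⟩, ht4⟩, ht3⟩ := (((hev.and hev2).and hev4).and hev3).exists
  refine ⟨t, ht3, fun y hy hyC => ?_⟩
  rw [mem_ball, dist_eq_norm] at hy
  rcases hyC with hyC | hyC
  · exact hyC (hop y (hy.trans ht4))
  obtain ⟨b, hb1, hb2, hb3⟩ := hyC
  have h1 := tri x y b.1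
  have h2 : b ∈ hf.toFinset := by
    rw [Set.Finite.mem_toFinset]
    exact ⟨hb1, hb2, by linarith⟩
  have h3 := ht1 b h2
  linarith

end

/-- **Main theorem**: a space with sufficiently many good points has no tiling by balls. -/
theorem t_GOO (h1 : S_FLA.{u}) (h3 : S_SEP.{u}) (X : Type u) [NormedAddCommGroup X]
    [NormedSpace ℝ X] [CompleteSpace X] (hR : Rich X) (B : Set (X × ℝ)) : ¬ Tiling B := by
  intro hT
  classical
  -- the set of the good points of the balls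
  obtain ⟨D, hD⟩ : ∃ D : Set X, D = {x | ∃ b ∈ B, ∃ e : X, Good e ∧ x = b.1 + b.2 • e} := ⟨_, rfl⟩
  have hDS : ∀ x ∈ D, Sing B x := by
    intro x hx
    rw [hD] at hx
    obtain ⟨b, hb, e, ⟨he1, he2, -⟩, rfl⟩ := hx
    have hr := hT.pos b hb
    by_contra hs
    obtain ⟨F, ε, hε, hF⟩ := h1 X B hT b hb (b.1 + b.2 • e) (by
      rw [add_sub_cancel_left, norm_smul, he1, mul_one, Real.norm_of_nonneg hr.le]) hs
    obtain ⟨v, hv1, hv2, hv3⟩ := he2 F (ε / b.2) (by positivity)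
    have h5 := hF (b.2 • v) (fun f hf => by rw [map_smul, hv1 f hf, smul_zero]) (by
      rw [norm_smul, Real.norm_of_nonneg hr.le]
      rw [le_div_iff₀ hr] at hv2
      linarith)
    have h6 : b.1 + b.2 • e + b.2 • v - b.1 = b.2 • (e + v) := by module
    rw [h6, norm_smul, Real.norm_of_nonneg hr.le] at h5
    nlinarith
  have hDL : ∀ x ∈ D, ∀ δ > 0, LN B δ x := by
    intro x hx δ hδ
    rw [hD] at hx
    obtain ⟨b, hb, e, ⟨he1, -, he3⟩, rfl⟩ := hx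
    exact lnu_pt hT hb he1 he3 hδ
  have hDB : ∀ b ∈ B, ∀ (F : Finset (X →L[ℝ] ℝ)) (ε : ℝ), 0 < ε → ∃ z ∈ D, ‖z - b.1‖ ≤ b.2 ∧
      ∀ f ∈ F, f b.1 - ε < f z := by
    intro b hb F ε hε
    have hr := hT.pos b hb
    obtain ⟨e, he, hef⟩ := hR F (ε / b.2) (by positivity)
    refine ⟨b.1 + b.2 • e, by rw [hD]; exact ⟨b, hb, e, he, rfl⟩, ?_, fun f hf => ?_⟩
    · rw [add_sub_cancel_left, norm_smul, he.1, mul_one, Real.norm_of_nonneg hr.le]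
    · have h5 := hef f hf
      rw [map_add, map_smul, smul_eq_mul]
      have h6 : b.2 * (-(ε / b.2)) < b.2 * f e := mul_lt_mul_of_pos_left h5 hr
      have h7 : b.2 * (-(ε / b.2)) = -ε := by field_simp
      linarith
  obtain ⟨b₀, hb₀, -⟩ := hT.cov 0
  obtain ⟨z₀, hz₀, -, -⟩ := hDB b₀ hb₀ ∅ 1 one_pos
  -- Baire category in the closure of `D`
  have : CompleteSpace (closure D) := isClosed_closure.completeSpace_coe
  have : Nonempty (closure D) := ⟨⟨z₀, subset_closure hz₀⟩⟩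
  obtain ⟨n, hn⟩ := nonempty_interior_of_iUnion_of_closed (X := closure D)
    (f := fun n : ℕ => Subtype.val ⁻¹' {x : X | ¬ LN B (1 / ((n : ℝ) + 1)) x ∨
      ∃ b ∈ B, 1 / ((n : ℝ) + 1) ≤ b.2 ∧ ‖x - b.1‖ ≤ b.2})
    (fun n => (E_closed B _).preimage continuous_subtype_val) (by
      rw [Set.eq_univ_iff_forall]
      rintro ⟨x, hx⟩
      obtain ⟨b, hb, hxb⟩ := hT.cov x
      obtain ⟨n, hn⟩ := exists_nat_one_div_lt (hT.pos b hb)
      exact Set.mem_iUnion.2 ⟨n, Or.inr ⟨b, hb, hn.le, hxb⟩⟩)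
  obtain ⟨δ, hδd⟩ : ∃ δ : ℝ, δ = 1 / ((n : ℝ) + 1) := ⟨_, rfl⟩
  have hδ : 0 < δ := by rw [hδd]; positivity
  rw [← hδd] at hn
  obtain ⟨⟨q₀, hq₀⟩, hqi⟩ := hn
  rw [mem_interior_iff_mem_nhds, Metric.mem_nhds_iff] at hqi
  obtain ⟨ρ₀, hρ₀, hρ₀'⟩ := hqi
  -- a point of `D` near `q₀`
  obtain ⟨q, hqD, hqq⟩ := Metric.mem_closure_iff.1 hq₀ (ρ₀ / 2) (by positivity)
  obtain ⟨ρ', hρ', hopen⟩ := LN_open B δ (hDL q hqD δ hδ)
  have hball : ∀ x ∈ D, ‖x - q‖ < min (ρ₀ / 2) ρ' → ∃ b ∈ B, δ ≤ b.2 ∧ ‖x - b.1‖ ≤ b.2 := by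
    intro x hx hxq
    have h5 : (⟨x, subset_closure hx⟩ : closure D) ∈ Metric.ball (⟨q₀, hq₀⟩ : closure D) ρ₀ := by
      rw [mem_ball, Subtype.dist_eq]
      have h6 : dist x q < ρ₀ / 2 := by
        rw [dist_eq_norm]
        exact hxq.trans_le (min_le_left _ _)
      have h7 := dist_triangle x q q₀
      rw [dist_comm q q₀] at h7
      show dist x q₀ < ρ₀
      linarith
    rcases hρ₀' h5 with h6 | h6
    · exact absurd (hopen x (hxq.trans_le (min_le_right _ _))) h6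
    · exact h6
  obtain ⟨ρ, hρd⟩ : ∃ ρ : ℝ, ρ = min (ρ₀ / 2) ρ' := ⟨_, rfl⟩
  have hρ : 0 < ρ := by rw [hρd]; positivity
  rw [← hρd] at hball
  obtain ⟨ρ₁, hρ₁, hρ₁ρ, hfin1⟩ : ∃ ρ₁ > 0, ρ₁ ≤ ρ ∧
      {b | b ∈ B ∧ δ ≤ b.2 ∧ ‖q - b.1‖ < b.2 + ρ₁}.Finite := by
    obtain ⟨r, hr, hfin⟩ := hDL q hqD δ hδ
    refine ⟨min r ρ, lt_min hr hρ, min_le_right _ _, hfin.subset ?_⟩
    rintro b ⟨hb1, hb2, hb3⟩
    exact ⟨hb1, hb2, hb3.trans_le (by have := min_le_left r ρ; linarith)⟩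
  obtain ⟨ρ₂, hρ₂, hρ₂ρ, hfin2⟩ : ∃ ρ₂ > 0, ρ₂ ≤ ρ₁ / 8 ∧
      {b | b ∈ B ∧ min δ (ρ₁ / 8) ≤ b.2 ∧ ‖q - b.1‖ < b.2 + ρ₂}.Finite := by
    obtain ⟨r, hr, hfin⟩ := hDL q hqD (min δ (ρ₁ / 8)) (by positivity)
    refine ⟨min r (ρ₁ / 8), by positivity, min_le_right _ _, hfin.subset ?_⟩
    rintro b ⟨hb1, hb2, hb3⟩
    exact ⟨hb1, hb2, hb3.trans_le (by have := min_le_left r (ρ₁ / 8); linarith)⟩
  -- a small ball close to `q`
  obtain ⟨b, ⟨hb, hqb⟩, hbn⟩ := ((hDS q hqD ρ₂ hρ₂).sdiff hfin2).nonempty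
  have hb2 : b.2 < min δ (ρ₁ / 8) := by
    by_contra hle
    exact hbn ⟨hb, not_lt.1 hle, hqb⟩
  have hbδ : b.2 < δ := hb2.trans_le (min_le_left _ _)
  have hbρ : b.2 < ρ₁ / 8 := hb2.trans_le (min_le_right _ _)
  have hsep : ∀ b', b' ∈ {b' | b' ∈ B ∧ δ ≤ b'.2 ∧ ‖q - b'.1‖ < b'.2 + ρ₁} →
      ∃ (f : X →L[ℝ] ℝ) (β : ℝ), (∀ x, ‖x - b'.1‖ ≤ b'.2 → f x ≤ β) ∧ β < f b.1 := by
    rintro b' ⟨hb'1, hb'2, -⟩
    have hne : b' ≠ b := by
      rintro rfl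
      linarith
    obtain ⟨f, β, hf1, -, -, hf2⟩ := h3 X B hT b' hb'1 b hb hne
    exact ⟨f, β, hf1, hf2⟩
  choose! f β hf1 hf2 using hsep
  obtain ⟨ε, hε, hεf⟩ : ∃ ε > 0, ∀ b' ∈ hfin1.toFinset, ε ≤ f b' b.1 - β b' := by
    have hev : ∀ᶠ t in 𝓝[>] (0 : ℝ), ∀ b' ∈ hfin1.toFinset, t < f b' b.1 - β b' :=
      (Filter.eventually_all_finset hfin1.toFinset).2 fun b' hb' =>
        mem_nhdsWithin_of_mem_nhds (Iio_mem_nhds (by
          have := hf2 b' (hfin1.mem_toFinset.1 hb')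
          linarith))
    have hev3 : ∀ᶠ t in 𝓝[>] (0 : ℝ), 0 < t := eventually_mem_nhdsWithin
    obtain ⟨t, ht1, ht2⟩ := (hev.and hev3).exists
    exact ⟨t, ht2, fun b' hb' => (ht1 b' hb').le⟩
  obtain ⟨z, hz1, hz2, hz3⟩ := hDB b hb (hfin1.toFinset.image f) ε hε
  have hzq : ‖z - q‖ < ρ₁ := by
    have h5 : ‖z - q‖ ≤ ‖z - b.1‖ + ‖b.1 - q‖ := norm_sub_le_norm_sub_add_norm_sub _ _ _
    rw [norm_sub_rev b.1 q] at h5
    linarith
  obtain ⟨b', hb'1, hb'2, hb'3⟩ := hball z hz1 (hzq.trans_le hρ₁ρ)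
  have hb'N : b' ∈ {b' | b' ∈ B ∧ δ ≤ b'.2 ∧ ‖q - b'.1‖ < b'.2 + ρ₁} := by
    refine ⟨hb'1, hb'2, ?_⟩
    have h5 : ‖q - b'.1‖ ≤ ‖q - z‖ + ‖z - b'.1‖ := norm_sub_le_norm_sub_add_norm_sub _ _ _
    rw [norm_sub_rev q z] at h5
    linarith
  have h6 := hf1 b' hb'N z hb'3
  have h7 := hεf b' (hfin1.mem_toFinset.2 hb'N)
  have h8 := hz3 (f b') (Finset.mem_image_of_mem f (hfin1.mem_toFinset.2 hb'N))
  linarith

end Pool.Agent.N242.NT
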