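import Pool.Agent.N242.NT.Stm

set_option autoImplicit false

open Metric Set Filter Topology

namespace Pool.Agent.N242.NT

universe u

theorem t_KOT : S_KOT.{u} := by
  intro X _ _ hK
  obtain ⟨η, hη, hK⟩ := hK
  rintro ⟨e, u, -, hu, h2, -⟩
  -- `η < 2`
  have hη2 : η < 2 := by
    obtain ⟨i, j, -, hij⟩ := hK (fun _ => 0) (fun _ => by simp)
    simp at hij
    linarith
  have hev : ∀ᶠ n in atTop, ‖u n‖ < 1 + η / 2 :=
    hu.eventually_lt_const (by linarith)
  obtain ⟨N, hN⟩ := eventually_atTop.1 hev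
  have hpos : (0 : ℝ) < 1 + η / 2 := by linarith
  obtain ⟨i, j, hij, hlt⟩ := hK (fun n => (1 + η / 2)⁻¹ • u (N + n)) (fun n => by
    rw [norm_smul, norm_inv, Real.norm_of_nonneg hpos.le, inv_mul_le_iff₀ hpos, mul_one]
    exact (hN _ (by omega)).le)
  simp only [← smul_sub] at hlt
  rw [norm_smul, norm_inv, Real.norm_of_nonneg hpos.le, inv_mul_lt_iff₀ hpos] at hlt
  have h3 := h2 (N + i) (N + j) (by omega)
  nlinarith

theorem t_OPN : S_OPN.{u} := by
  intro X _ _ M hM
  obtain ⟨η, hη, hM⟩ := hM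
  have hη2 : η < 2 := by
    obtain ⟨i, j, -, hij⟩ := hM (fun _ => 0) (fun _ => by simp)
    simp at hij
    linarith
  refine ⟨η / 8, by positivity, by linarith, fun M' hM' => ⟨η / 2, by positivity, fun u hu => ?_⟩⟩
  have hpos : 0 < 1 - η / 8 := by linarith
  obtain ⟨i, j, hij, hlt⟩ := hM (fun n => (1 - η / 8) • u n) (fun n => by
    rw [map_smul_eq_mul, Real.norm_of_nonneg hpos.le]
    exact (hM' (u n)).1.trans (hu n))
  simp only [← smul_sub] at hlt
  rw [map_smul_eq_mul, Real.norm_of_nonneg hpos.le] at hlt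
  refine ⟨i, j, hij, (hM' (u i - u j)).2.trans_lt ?_⟩
  have h0 : 0 ≤ M (u i - u j) := apply_nonneg _ _
  have h1 : M (u i - u j) < (2 - η / 2) / (1 + η / 8) := by
    rw [lt_div_iff₀ (by linarith)]
    by_contra hcon
    push Not at hcon
    nlinarith
  rw [lt_div_iff₀ (by linarith)] at h1
  linarith

end Pool.Agent.N242.NT
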