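import Pool.Agent.N242.NT.Good

/-!
# Project NT (helper242): sufficient conditions for the existence of good points
-/

set_option autoImplicit false

open Metric Set Filter Topology

namespace Pool.Agent.N242.NT

universe u

section

variable {X : Type u} [NormedAddCommGroup X] [NormedSpace ℝ X]

/-- The unit sphere is locally uniformly rotund at `e`. -/
def LURp (e : X) : Prop :=
  ‖e‖ = 1 ∧ ∀ u : ℕ → X, Tendsto (fun n => ‖u n‖) atTop (𝓝 1) →
    Tendsto (fun n => ‖e + u n‖) atTop (𝓝 2) → Tendsto u atTop (𝓝 e)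

/-- a common zero of finitely many functionals -/
theorem exists_ker (hinf : ¬ FiniteDimensional ℝ X) (G : Finset (X →L[ℝ] ℝ)) :
    ∃ w : X, w ≠ 0 ∧ ∀ f ∈ G, f w = 0 := by
  by_contra hcon
  push Not at hcon
  refine hinf (FiniteDimensional.of_injective
    (LinearMap.pi fun f : G => ((f : X →L[ℝ] ℝ) : X →ₗ[ℝ] ℝ)) ?_)
  rw [← LinearMap.ker_eq_bot, LinearMap.ker_eq_bot']
  intro w hw
  by_contra hw0
  obtain ⟨f, hf, hfw⟩ := hcon w hw0
  exact hfw (congrFun hw ⟨f, hf⟩)

theorem good_of_lur (hinf : ¬ FiniteDimensional ℝ X) {e : X} (he : LURp e) : Good e := by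
  obtain ⟨he1, he2⟩ := he
  refine ⟨he1, ?_, ?_⟩
  · intro G ε hε
    obtain ⟨w, hw0, hw⟩ := exists_ker hinf G
    by_contra hcon
    push Not at hcon
    have hwn : 0 < ‖w‖ := norm_pos_iff.2 hw0
    obtain ⟨v, hv⟩ : ∃ v : X, v = (ε / ‖w‖) • w := ⟨_, rfl⟩
    have hv0 : v ≠ 0 := by
      rw [hv]
      exact smul_ne_zero (by positivity) hw0
    have hvn : ‖v‖ ≤ ε := by
      rw [hv, norm_smul, Real.norm_of_nonneg (by positivity)]
      exact le_of_eq (by field_simp)
    have h1 : ‖e + v‖ ≤ 1 := hcon v (fun f hf => by rw [hv, map_smul, hw f hf, smul_zero]) hvn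
    have h2 : ‖e + -v‖ ≤ 1 := hcon (-v) (fun f hf => by
      rw [map_neg, hv, map_smul, hw f hf, smul_zero, neg_zero]) (by rwa [norm_neg])
    have h3 : (2 : ℝ) ≤ ‖e + v‖ + ‖e + -v‖ := by
      have h4 : ‖(e + v) + (e + -v)‖ = 2 := by
        have : (e + v) + (e + -v) = (2 : ℝ) • e := by module
        rw [this, norm_smul, he1]
        norm_num
      rw [← h4]
      exact norm_add_le _ _
    have h5 : ‖e + v‖ = 1 := by linarith
    -- `e + (e + v)` has norm `2`
    have h6 : ‖e + (e + v)‖ = 2 := by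
      apply le_antisymm
      · calc ‖e + (e + v)‖ ≤ ‖e‖ + ‖e + v‖ := norm_add_le _ _
          _ = 2 := by rw [he1, h5]; norm_num
      · have h7 : ‖(e + (e + v)) + (e + -v)‖ = 3 := by
          have : (e + (e + v)) + (e + -v) = (3 : ℝ) • e := by module
          rw [this, norm_smul, he1]
          norm_num
        have h8 := norm_add_le (e + (e + v)) (e + -v)
        linarith
    have h7 := he2 (fun _ => e + v) (by rw [h5]; exact tendsto_const_nhds)
      (by rw [h6]; exact tendsto_const_nhds)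
    have h8 := tendsto_nhds_unique h7 tendsto_const_nhds
    apply hv0
    have h9 : e + v - e = 0 := by rw [← h8, sub_self]
    rwa [add_sub_cancel_left] at h9
  · rintro ⟨u, hu1, hu2, hu3⟩
    have h1 : Tendsto (fun n => ‖e + u n‖) atTop (𝓝 2) := by
      have h2 : Tendsto (fun n => ‖e‖ + ‖u n‖) atTop (𝓝 2) := by
        have := hu1.const_add ‖e‖
        rw [he1] at this
        rw [he1]
        norm_num at this
        exact this
      exact tendsto_of_tendsto_of_tendsto_of_le_of_le tendsto_const_nhds h2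
        (fun n => hu3 n) (fun n => norm_add_le _ _)
    have h3 := he2 u hu1 h1
    have h4 : Tendsto (fun n => u (n + 1)) atTop (𝓝 e) := h3.comp (tendsto_add_atTop_nat 1)
    have h5 : Tendsto (fun n => ‖u n - u (n + 1)‖) atTop (𝓝 0) := by
      have := (h3.sub h4).norm
      rwa [sub_self, norm_zero] at this
    have h6 := le_of_tendsto_of_tendsto' tendsto_const_nhds h5
      (fun n => hu2 n (n + 1) (by omega))
    norm_num at h6

/-- `Rich` from the weak closure. -/
theorem rich_of_weak (h : (0 : WeakSpace ℝ X) ∈ closure (toWeakSpace ℝ X '' {e | Good e})) :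
    Rich X := by
  intro F ε hε
  have hcont : ∀ f : X →L[ℝ] ℝ,
      Continuous fun x : WeakSpace ℝ X => f ((toWeakSpace ℝ X).symm x) := fun f =>
    WeakBilin.eval_continuous (topDualPairing ℝ X).flip f
  have hopen : IsOpen (⋂ f ∈ F, {x : WeakSpace ℝ X | -ε < f ((toWeakSpace ℝ X).symm x)}) := by
    refine isOpen_biInter_finset fun f _ => ?_
    exact isOpen_lt continuous_const (hcont f)
  obtain ⟨x, hx1, e, he, rfl⟩ := mem_closure_iff.1 h _ hopen (by
    simp only [mem_iInter, mem_ofPred_eq, map_zero]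
    intro f _
    linarith)
  refine ⟨e, he, fun f hf => ?_⟩
  simp only [mem_iInter, mem_ofPred_eq, LinearEquiv.symm_apply_apply] at hx1
  exact hx1 f hf

theorem rich_of_lur (hinf : ¬ FiniteDimensional ℝ X)
    (h : ∀ (F : Finset (X →L[ℝ] ℝ)) (ε : ℝ), 0 < ε → ∃ e : X, LURp e ∧ ∀ f ∈ F, -ε < f e) :
    Rich X := by
  intro F ε hε
  obtain ⟨e, he, hf⟩ := h F ε hε
  exact ⟨e, good_of_lur hinf he, hf⟩

theorem nb_of_Q {e : X} (he : ‖e‖ = 1) (hQ : Q X) : NB e := by
  rintro ⟨u, h1, h2, h3⟩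
  exact hQ ⟨e, u, he, h1, h2, h3⟩

end

theorem rich_of_kmp (h2 : S_EXT.{u}) (X : Type u) [NormedAddCommGroup X] [NormedSpace ℝ X]
    (hK : KMP X) (hinf : ¬ FiniteDimensional ℝ X) (hQ : Q X) : Rich X := by
  intro F ε hε
  obtain ⟨z, hz1, hz2, hz3⟩ := h2 X hK hinf 0 1 one_pos F
  rw [sub_zero] at hz1
  have hz : ‖z‖ = 1 := by
    by_contra hne
    have hlt : ‖z‖ < 1 := lt_of_le_of_ne hz1 hne
    obtain ⟨v, -, hv2, hv3⟩ := hz3 ∅ (1 - ‖z‖) (by linarith)
    apply hv3
    rw [sub_zero]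
    have := norm_add_le z v
    linarith
  refine ⟨z, ⟨hz, ?_, nb_of_Q hz hQ⟩, fun f hf => ?_⟩
  · intro G ε' hε'
    obtain ⟨v, hv1, hv2, hv3⟩ := hz3 G ε' hε'
    rw [sub_zero] at hv3
    exact ⟨v, hv1, hv2, not_le.1 hv3⟩
  · rw [hz2 f hf, map_zero]
    linarith

end Pool.Agent.N242.NT
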